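import Mathlib
import Pool.Agent.Q20.Rabbit.Unique

/-!
The homeomorphism group of the `4`-regular rabbit does not embed, even as an abstract group, in
the homeomorphism group of the `3`-regular rabbit.

`Homeo (R_n)` is (problem file, known part) the universal group `U(Sym(n), Aut(S))` of the
`(n, ∞)`-biregular tree: the type preserving automorphisms whose local action at the vertices of
infinite degree (the circles) preserves the separation relation of a countable dense subset `S` of
a circle.  Here the circle is `ℝ ∪ {∞}` and `S = ℚ`.

* `Separates a b c d` : the pair `{a, b}` separates the pair `{c, d}` on the circle `ℝ ∪ {∞}`.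
* `Legal n T circ col` : `T` is a tree, every edge joins a circle and a cut point, cut points have
  degree `n`, and around each circle the cut points are coloured bijectively by `ℚ`.
* `U T circ col` : the universal group.

Proof.  In the `(4, ∞)`-tree the rotations of order three of three of the four branches at two cut
points of a common circle commute and generate `C₃ × C₃`.  In the `(3, ∞)`-tree an element of order
three fixes exactly one vertex, so a subgroup `C₃ × C₃` fixes a vertex and acts freely on the edges
at this vertex; there are only three of them at a cut point, and at a circle a group `C₃ × C₃`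
cannot act freely and preserve separation.
-/

namespace Pool.Agent.Results.MP_1730fe_al.NoEmbedding

open Q20.Rabbit

/-- No injective homomorphism from the group of the standard `(4, ∞)`-tree. -/
theorem main {V : Type*} {T : SimpleGraph V} {c : V → Prop} {l : V → ℚ} (hL : Legal 3 T c l)
    (f : U (tree 3) (circ 3) (col 3) →* U T c l) : ¬ Function.Injective f := by
  intro hf
  have hne : ∀ x : U (tree 3) (circ 3) (col 3), x ≠ 1 → (f x).1 ≠ 1 := by
    intro x hx h
    apply hx
    apply hf
    rw [map_one]
    exact Subtype.ext h
  refine no_three_squared hL (f (R 0)).2 (f (R 1)).2 ?_ ?_ ?_ (hne _ R0_ne) (hne _ R1_ne) ?_ ?_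
  · have := congrArg Subtype.val (congrArg f (R_three 0))
    rw [map_mul, map_mul, map_one] at this
    exact this
  · have := congrArg Subtype.val (congrArg f (R_three 1))
    rw [map_mul, map_mul, map_one] at this
    exact this
  · have := congrArg Subtype.val (congrArg f (R_comm 0 1))
    rw [map_mul, map_mul] at this
    exact this
  · have := hne _ R01_ne
    rw [map_mul] at this
    exact this
  · have := hne _ R001_ne
    rw [map_mul, map_mul] at this
    exact this

/-- **Theorem.** (1) For every `n ≥ 1` the `(n, ∞)`-biregular tree with a legal colouring exists,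
(2) it is unique up to isomorphism, and (3) the universal group of the `(4, ∞)`-biregular tree does
not embed, even as an abstract group, in the universal group of the `(3, ∞)`-biregular tree. -/
theorem result :
    (∀ m : ℕ, Legal (m + 1) (tree m) (circ m) (col m)) ∧
    (∀ (m : ℕ) (V : Type) (T : SimpleGraph V) (c : V → Prop) (l : V → ℚ),
      Legal (m + 1) T c l → ∃ Φ : tree m ≃g T,
        (∀ v, c (Φ v) ↔ circ m v) ∧ ∀ v, ¬ circ m v → l (Φ v) = col m v) ∧
    (∀ (V₄ V₃ : Type) (T₄ : SimpleGraph V₄) (c₄ : V₄ → Prop) (l₄ : V₄ → ℚ)
      (T₃ : SimpleGraph V₃) (c₃ : V₃ → Prop) (l₃ : V₃ → ℚ),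
      Legal 4 T₄ c₄ l₄ → Legal 3 T₃ c₃ l₃ →
      ∀ f : U T₄ c₄ l₄ →* U T₃ c₃ l₃, ¬ Function.Injective f) := by
  refine ⟨legal_tree, fun m V T c l hL => exists_iso hL, ?_⟩
  intro V₄ V₃ T₄ c₄ l₄ T₃ c₃ l₃ h₄ h₃ f hf
  obtain ⟨Φ, h1, h2⟩ := exists_iso h₄
  exact main h₃ (f.comp (conjHom Φ h1 h2 (legal_tree 3).types))
    (hf.comp (conjHom_inj Φ h1 h2 (legal_tree 3).types))

end Pool.Agent.Results.MP_1730fe_al.NoEmbedding
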